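import Pool.Agent.W642.RV.Vas

set_option autoImplicit false

/-!
# Second moments of the brackets of random stacks and random grid diagrams lie rarely in small sets
-/

namespace Pool.Agent.H239.RG

open Finset Pool.Agent.H832R2.JR Pool.Agent.H832R3.VJ LaurentPolynomial Pool.Agent.W642.RV
open Pool.Agent.W642.RS (Stack IsPolygon)

variable {N n : ℕ}

/-- the number of stackings whose second moment lies in `S` -/
theorem card_le_sum (D : Stack N n) (S : Finset ℤ) :
    (univ.filter fun h : Equiv.Perm (Fin n) => moment 2 (D.f h) ∈ S).card ≤ ∑ c ∈ S, TT D c := by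
  classical
  have h1 : (univ.filter fun h : Equiv.Perm (Fin n) => moment 2 (D.f h) ∈ S) ⊆
      S.biUnion fun c => univ.filter fun h : Equiv.Perm (Fin n) => rho (D.f h) 0 2 = c := by
    intro h hh
    rw [mem_filter] at hh
    rw [mem_biUnion]
    exact ⟨_, hh.2, mem_filter.2 ⟨mem_univ _, rho_moment _⟩⟩
  refine (card_le_card h1).trans (card_biUnion_le.trans (le_of_eq ?_))
  refine sum_congr rfl fun c _ => ?_
  unfold TT
  congr

theorem stackS : ∃ C : ℝ, 0 < C ∧ ∀ (N n : ℕ) (D : Stack N n) (S : Finset ℤ),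
    (N : ℝ) ^ (3 / 4 : ℝ) *
      ((univ.filter fun h : Equiv.Perm (Fin n) => moment 2 (D.f h) ∈ S).card : ℝ) ≤
        C * S.card * (n : ℝ) ^ (5 / 4 : ℝ) * (n.factorial : ℝ) := by
  obtain ⟨C, hC, h⟩ := stack_main
  refine ⟨C ^ (1 / 4 : ℝ), by positivity, fun N n D S => ?_⟩
  rcases Nat.eq_zero_or_pos N with rfl | hN
  · rw [Nat.cast_zero, Real.zero_rpow (by norm_num), zero_mul]
    positivity
  have hNr : (0 : ℝ) < N := by exact_mod_cast hN
  have h1 : ∀ c, (N : ℝ) ^ (3 / 4 : ℝ) * (TT D c : ℝ) ≤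
      C ^ (1 / 4 : ℝ) * (n : ℝ) ^ (5 / 4 : ℝ) * (n.factorial : ℝ) := by
    intro c
    have h2 := h N n D c
    have h4 := root_le (a := (N : ℝ) ^ 3) (b := C * (n : ℝ) ^ 5) (by positivity) (by positivity)
      (by positivity) (by positivity) h2
    have e1 : ((N : ℝ) ^ 3) ^ (1 / 4 : ℝ) = (N : ℝ) ^ (3 / 4 : ℝ) := by
      rw [← Real.rpow_natCast, ← Real.rpow_mul hNr.le]; norm_num
    have e2 : (C * (n : ℝ) ^ 5) ^ (1 / 4 : ℝ) = C ^ (1 / 4 : ℝ) * (n : ℝ) ^ (5 / 4 : ℝ) := by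
      rw [Real.mul_rpow hC.le (by positivity), ← Real.rpow_natCast (n : ℝ) 5,
        ← Real.rpow_mul (by positivity)]
      norm_num
    rw [e1, e2] at h4
    exact h4
  have h3 : ((univ.filter fun h : Equiv.Perm (Fin n) => moment 2 (D.f h) ∈ S).card : ℝ) ≤
      ∑ c ∈ S, (TT D c : ℝ) := by exact_mod_cast card_le_sum D S
  calc _ ≤ (N : ℝ) ^ (3 / 4 : ℝ) * ∑ c ∈ S, (TT D c : ℝ) := by gcongr
    _ = ∑ c ∈ S, (N : ℝ) ^ (3 / 4 : ℝ) * (TT D c : ℝ) := by rw [mul_sum]
    _ ≤ ∑ _c ∈ S, C ^ (1 / 4 : ℝ) * (n : ℝ) ^ (5 / 4 : ℝ) * (n.factorial : ℝ) :=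
        sum_le_sum fun c _ => h1 c
    _ = _ := by rw [sum_const, nsmul_eq_mul]; ring

/-- random arc presentations: both the polygon and the heights are random -/
theorem gridS : ∃ C : ℝ, 0 < C ∧ ∀ (n : ℕ) (N : Equiv.Perm (Fin n) → ℕ)
    (D : ∀ r : Equiv.Perm (Fin n), Stack (N r) n), (∀ r, IsPolygon r (D r)) →
      ∀ (M : ℕ) (S : Equiv.Perm (Fin n) → Finset ℤ), (∀ r, (S r).card ≤ M) →
      (n : ℝ) ^ (1 / 4 : ℝ) * ((univ.filter fun x : Equiv.Perm (Fin n) × Equiv.Perm (Fin n) =>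
        moment 2 ((D x.1).f x.2) ∈ S x.1).card : ℝ) ≤ C * M * (n.factorial : ℝ) ^ 2 := by
  classical
  obtain ⟨C, hC, h⟩ := poly_main
  refine ⟨C + C ^ (1 / 4 : ℝ), by positivity, fun n N D hD M S hS => ?_⟩
  rcases Nat.eq_zero_or_pos n with rfl | hn
  · rw [Nat.cast_zero, Real.zero_rpow (by norm_num), zero_mul]
    positivity
  rcases Nat.eq_zero_or_pos M with rfl | hM
  · have h0 : (univ.filter fun x : Equiv.Perm (Fin n) × Equiv.Perm (Fin n) =>
        moment 2 ((D x.1).f x.2) ∈ S x.1) = ∅ := by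
      rw [eq_empty_iff_forall_notMem]
      intro x hx
      rw [mem_filter] at hx
      have h1 := hS x.1
      rw [Nat.le_zero, card_eq_zero] at h1
      rw [h1] at hx
      simp at hx
    rw [h0]
    simp
  have hM1 : (1 : ℝ) ≤ M := by exact_mod_cast hM
  have hn1 : (1 : ℝ) ≤ n := by exact_mod_cast hn
  obtain ⟨R, hR, h1⟩ := h n
  set f : ℝ := (n.factorial : ℝ) with hf'
  have hf0 : 0 < f := by rw [hf']; exact_mod_cast Nat.factorial_pos n
  set q : ℝ := (n : ℝ) ^ (1 / 4 : ℝ) with hq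
  have hq0 : 0 < q := by rw [hq]; positivity
  have hqn : q ≤ n := by
    rw [hq]
    calc (n : ℝ) ^ (1 / 4 : ℝ) ≤ (n : ℝ) ^ (1 : ℝ) :=
          Real.rpow_le_rpow_of_exponent_le hn1 (by norm_num)
      _ = n := Real.rpow_one _
  set b : Equiv.Perm (Fin n) → ℕ := fun r =>
    (univ.filter fun h : Equiv.Perm (Fin n) => moment 2 ((D r).f h) ∈ S r).card with hb
  have hbf : ∀ r, (b r : ℝ) ≤ f := by
    intro r
    have : b r ≤ n.factorial := by
      refine (card_le_univ _).trans ?_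
      rw [Fintype.card_perm, Fintype.card_fin]
    rw [hf']
    exact_mod_cast this
  have hcount : ((univ.filter fun x : Equiv.Perm (Fin n) × Equiv.Perm (Fin n) =>
        moment 2 ((D x.1).f x.2) ∈ S x.1).card : ℝ) = ∑ r, (b r : ℝ) := by
    have : (univ.filter fun x : Equiv.Perm (Fin n) × Equiv.Perm (Fin n) =>
        moment 2 ((D x.1).f x.2) ∈ S x.1).card = ∑ r, b r := by
      rw [card_filter, Fintype.sum_prod_type]
      refine sum_congr rfl fun r _ => ?_
      rw [hb]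
      simp only
      rw [card_filter]
    rw [this]
    push_cast
    rfl
  rw [hcount, ← sum_filter_add_sum_filter_not univ (fun r => r ∈ R), mul_add]
  have e1 : q * ∑ r ∈ univ.filter (fun r => r ∈ R), (b r : ℝ) ≤ C * M * f ^ 2 := by
    have e2 : ∑ r ∈ univ.filter (fun r => r ∈ R), (b r : ℝ) ≤ (R.card : ℝ) * f := by
      calc _ ≤ ∑ _r ∈ univ.filter (fun r => r ∈ R), f := sum_le_sum fun r _ => hbf r
        _ = _ := by
          rw [sum_const, nsmul_eq_mul]
          congr 3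
          ext r; simp
    calc q * ∑ r ∈ univ.filter (fun r => r ∈ R), (b r : ℝ) ≤ q * ((R.card : ℝ) * f) := by gcongr
      _ ≤ n * ((R.card : ℝ) * f) := by gcongr
      _ = (n * (R.card : ℝ)) * f := by ring
      _ ≤ (C * f) * f := by gcongr
      _ = C * 1 * f ^ 2 := by ring
      _ ≤ _ := by gcongr
  have e3 : q * ∑ r ∈ univ.filter (fun r => ¬ r ∈ R), (b r : ℝ) ≤ C ^ (1 / 4 : ℝ) * M * f ^ 2 := by
    rw [mul_sum]
    calc ∑ r ∈ univ.filter (fun r => ¬ r ∈ R), q * (b r : ℝ) ≤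
          ∑ _r ∈ univ.filter (fun r : Equiv.Perm (Fin n) => ¬ r ∈ R), C ^ (1 / 4 : ℝ) * M * f := by
          refine sum_le_sum fun r hr => ?_
          have h2 : (b r : ℝ) ≤ ∑ c ∈ S r, (TT (D r) c : ℝ) := by
            exact_mod_cast card_le_sum (D r) (S r)
          calc q * (b r : ℝ) ≤ q * ∑ c ∈ S r, (TT (D r) c : ℝ) := by gcongr
            _ = ∑ c ∈ S r, q * (TT (D r) c : ℝ) := by rw [mul_sum]
            _ ≤ ∑ _c ∈ S r, C ^ (1 / 4 : ℝ) * f := sum_le_sum fun c _ =>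
                root_le (by linarith) hC.le hf0.le (by positivity)
                  (h1 r (mem_filter.1 hr).2 (N r) (D r) (hD r) c)
            _ = ((S r).card : ℝ) * (C ^ (1 / 4 : ℝ) * f) := by rw [sum_const, nsmul_eq_mul]
            _ ≤ (M : ℝ) * (C ^ (1 / 4 : ℝ) * f) := by
                gcongr
                exact hS r
            _ = _ := by ring
      _ = ((univ.filter (fun r : Equiv.Perm (Fin n) => ¬ r ∈ R)).card : ℝ) *
          (C ^ (1 / 4 : ℝ) * M * f) := by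
          rw [sum_const, nsmul_eq_mul]
      _ ≤ f * (C ^ (1 / 4 : ℝ) * M * f) := by
          gcongr
          rw [hf']
          have : (univ.filter (fun r : Equiv.Perm (Fin n) => ¬ r ∈ R)).card ≤ n.factorial := by
            refine (card_le_univ _).trans ?_
            rw [Fintype.card_perm, Fintype.card_fin]
          exact_mod_cast this
      _ = _ := by ring
  calc _ ≤ C * M * f ^ 2 + C ^ (1 / 4 : ℝ) * M * f ^ 2 := add_le_add e1 e3
    _ = _ := by ring

end Pool.Agent.H239.RG
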